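import Pool.Agent.Q94.IZZero

/-!
# The join of two varieties of implication zroupoids not containing `ZM` does not contain `ZM`
-/

namespace Pool.Agent.Results.MP_5bed1d_al.ZeroDistributive

open Pool.Agent.Q94.IZ

theorem result : ∀ X Y : SubVar, ¬ ZM ≤ X → ¬ ZM ≤ Y → ¬ ZM ≤ X ⊔ Y := by
  intro X Y hX hY h
  -- the join satisfies `x'' ≈ x`
  have hj : ∀ A ∈ (X ⊔ Y).1, Sat A inv := by
    intro A hA
    apply hA inv
    rintro B (hB | hB)
    · exact sat_inv.2 (involutive_of_not_zm hX hB)
    · exact sat_inv.2 (involutive_of_not_zm hY hB)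
  -- the two-element algebra in `ZM`
  let M : Alg := ⟨Bool, fun _ _ => false, false⟩
  have hM : M ∈ ZM.1 := mem_ZM.2 (fun _ _ => rfl)
  have h1 := sat_inv.1 (hj M (h hM)) true
  exact absurd h1 (by decide)

end Pool.Agent.Results.MP_5bed1d_al.ZeroDistributive
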